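import Mathlib
import Pool.Agent.Results.MP_fdf3ca_an.SpaceableHD
import Pool.Agent.H402R2.SubMean

open Filter Topology MeasureTheory Metric
open scoped ENNReal

namespace Pool.Agent.Results.MP_fdf3ca_an.SpaceableBergman

open Pool.Agent.Results.MP_fdf3ca_an.SpaceableHD

/-- Area measure `dA` on the open unit disc: the restriction of Lebesgue measure of `ℂ` to `𝔻`, as a
measure on the type `Disc`. -/
noncomputable def area : Measure Disc := Measure.comap ((↑) : Disc → ℂ) volume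

/-- The quantity `‖f‖_{p,α} = (∫_𝔻 |f(z)|^p (1-|z|)^α dA(z)/π)^{min{1,1/p}} ∈ [0,∞]`; `dA` is area measure. -/
noncomputable def bnorm (p α : ℝ) (f : Disc → ℂ) : ℝ≥0∞ :=
  ((∫⁻ z : Disc, ‖f z‖ₑ ^ p * ENNReal.ofReal ((1 - ‖(z : ℂ)‖) ^ α) ∂area) / ENNReal.ofReal Real.pi) ^
    (min 1 (1 / p))

/-- the weighted measure -/
noncomputable def mu (α : ℝ) : Measure Disc :=
  (ENNReal.ofReal Real.pi)⁻¹ • area.withDensity
    (fun z => ENNReal.ofReal ((1 - ‖(z : ℂ)‖) ^ α))

theorem bnorm_eq (p α : ℝ) (f : Disc → ℂ) (hf : Continuous f) :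
    bnorm p α f = (∫⁻ z, ‖f z‖ₑ ^ p ∂(mu α)) ^ (min 1 (1 / p)) := by
  unfold bnorm mu
  have hm : Measurable fun z : Disc => ENNReal.ofReal ((1 - ‖(z : ℂ)‖) ^ α) := by
    fun_prop
  have hfm : Measurable fun z : Disc => ‖f z‖ₑ ^ p := by
    exact hf.measurable.enorm.pow_const p
  rw [lintegral_smul_measure, lintegral_withDensity_eq_lintegral_mul _ hm hfm, div_eq_mul_inv, mul_comm,
    smul_eq_mul]
  congr 3
  funext z
  simp [mul_comm]

theorem bnorm_add_le (p α : ℝ) (hp : 0 < p) (f g : Disc → ℂ) (hf : Continuous f) (hg : Continuous g) :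
    bnorm p α (f + g) ≤ bnorm p α f + bnorm p α g := by
  rw [bnorm_eq _ _ _ (hf.add hg), bnorm_eq _ _ _ hf, bnorm_eq _ _ _ hg]
  have hfm := hf.measurable.enorm
  have hgm := hg.measurable.enorm
  rcases le_total 1 p with h1 | h1
  · have hmin : min 1 (1 / p) = 1 / p := by
      apply min_eq_right
      rw [div_le_one hp]; exact h1
    rw [hmin]
    refine le_trans ?_ (ENNReal.lintegral_Lp_add_le hfm.aemeasurable hgm.aemeasurable h1)
    gcongr with z
    exact enorm_add_le _ _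
  · have hmin : min 1 (1 / p) = 1 := by
      apply min_eq_left
      rw [le_div_iff₀ hp]; linarith
    rw [hmin, ENNReal.rpow_one, ENNReal.rpow_one, ENNReal.rpow_one, ← lintegral_add_left]
    · apply lintegral_mono
      intro z
      calc ‖(f + g) z‖ₑ ^ p ≤ (‖f z‖ₑ + ‖g z‖ₑ) ^ p := by
            gcongr; exact enorm_add_le _ _
        _ ≤ _ := ENNReal.rpow_add_le_add_rpow _ _ hp.le h1
    · exact hfm.pow_const p

theorem bnorm_zero (p α : ℝ) (hp : 0 < p) : bnorm p α 0 = 0 := by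
  have : 0 < min 1 (1 / p) := lt_min one_pos (by positivity)
  simp [bnorm, ENNReal.zero_rpow_of_pos hp, hp]

theorem bnorm_smul (p α : ℝ) (hp : 0 < p) (c : ℂ) (f : Disc → ℂ) (hf : Continuous f) :
    bnorm p α (c • f) = (‖c‖ₑ ^ p) ^ (min 1 (1 / p)) * bnorm p α f := by
  have : 0 < min 1 (1 / p) := lt_min one_pos (by positivity)
  rw [bnorm_eq _ _ _ hf, bnorm_eq _ _ _ (hf.const_smul c), ← ENNReal.mul_rpow_of_nonneg _ _ this.le,
    ← lintegral_const_mul _ (hf.measurable.enorm.pow_const p)]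
  congr 2
  funext z
  rw [Pi.smul_apply, enorm_smul, ENNReal.mul_rpow_of_nonneg _ _ hp.le]

theorem bnorm_neg (p α : ℝ) (f : Disc → ℂ) : bnorm p α (-f) = bnorm p α f := by
  simp [bnorm]

/-- The weighted Bergman space `B^p_α` as a linear subspace of `C(𝔻, ℂ)`: the holomorphic functions
on `𝔻` with `‖f‖_{p,α} < ∞`. -/
def BergmanSub (p α : ℝ) (hp : 0 < p) : Submodule ℂ C(Disc, ℂ) where
  carrier := {f | f ∈ HolD ∧ bnorm p α f < ⊤}
  add_mem' := by
    intro f g hf hg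
    refine ⟨HolD.add_mem hf.1 hg.1, ?_⟩
    refine lt_of_le_of_lt (bnorm_add_le p α hp f g f.continuous g.continuous) ?_
    exact ENNReal.add_lt_top.2 ⟨hf.2, hg.2⟩
  zero_mem' := by
    refine ⟨HolD.zero_mem, ?_⟩
    change bnorm p α 0 < ⊤
    rw [bnorm_zero p α hp]; exact ENNReal.zero_lt_top
  smul_mem' := by
    intro c f hf
    refine ⟨HolD.smul_mem c hf.1, ?_⟩
    change bnorm p α (c • (f : Disc → ℂ)) < ⊤
    rw [bnorm_smul p α hp c f f.continuous]
    apply ENNReal.mul_lt_top _ hf.2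
    have : 0 < min 1 (1 / p) := lt_min one_pos (by positivity)
    exact ENNReal.rpow_lt_top_of_nonneg this.le (ENNReal.rpow_lt_top_of_nonneg hp.le enorm_ne_top).ne

/-- The weighted Bergman space `B^p_α` (`0 < p`), with the metric `d(f,g) = ‖f-g‖_{p,α}` below. -/
def Bergman (p α : ℝ) (hp : 0 < p) : Type := ↥(BergmanSub p α hp)

noncomputable instance instACG (p α : ℝ) (hp : 0 < p) : AddCommGroup (Bergman p α hp) :=
  inferInstanceAs (AddCommGroup ↥(BergmanSub p α hp))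

noncomputable instance instMod (p α : ℝ) (hp : 0 < p) : Module ℂ (Bergman p α hp) :=
  inferInstanceAs (Module ℂ ↥(BergmanSub p α hp))

/-- the underlying function `𝔻 → ℂ` of an element of `B^p_α` -/
noncomputable def Bergman.toFun {p α : ℝ} {hp : 0 < p} (f : Bergman p α hp) : Disc → ℂ := f.1

/-- the underlying element of `H(𝔻)` -/
noncomputable def Bergman.toHol {p α : ℝ} {hp : 0 < p} (f : Bergman p α hp) : HolD := ⟨f.1, f.2.1⟩

theorem lint_eq (p α : ℝ) (f : Disc → ℂ) :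
    ∫⁻ z : Disc, ‖f z‖ₑ ^ p * ENNReal.ofReal ((1 - ‖(z : ℂ)‖) ^ α) ∂area
      = ∫⁻ z in ball (0:ℂ) 1, ‖ext f z‖ₑ ^ p * ENNReal.ofReal ((1 - ‖z‖) ^ α) := by
  rw [area, ← lintegral_subtype_comap measurableSet_ball]
  congr 1
  funext z
  rw [ext_apply _ _ z.2]

theorem point_bound (p α : ℝ) (hp : 0 < p) : ∃ K : ℝ, 0 < K ∧ ∀ (f : HolD) (w : Disc),
    ‖(w:ℂ)‖ = 1/2 → ENNReal.ofReal (K * ‖f.1 w‖ ^ p) ≤
      (∫⁻ z : Disc, ‖f.1 z‖ₑ ^ p * ENNReal.ofReal ((1 - ‖(z : ℂ)‖) ^ α) ∂area)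
        / ENNReal.ofReal Real.pi := by
  set cα : ℝ := min ((1/4 : ℝ) ^ α) 1 with hcα
  have hcpos : 0 < cα := lt_min (by positivity) one_pos
  refine ⟨cα / 16, by positivity, fun f w hw => ?_⟩
  rw [lint_eq]
  have hsub : ball (w:ℂ) (1/4) ⊆ ball (0:ℂ) 1 := by
    intro z hz
    rw [mem_ball_zero_iff]
    rw [mem_ball, dist_eq_norm] at hz
    have := norm_add_le (z - w) (w:ℂ)
    rw [sub_add_cancel] at this
    linarith
  have h34 : ∀ z ∈ ball (w:ℂ) (1/4), ‖z‖ < 3/4 := by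
    intro z hz
    rw [mem_ball, dist_eq_norm] at hz
    have := norm_add_le (z - w) (w:ℂ)
    rw [sub_add_cancel] at this
    linarith
  have h1 : ENNReal.ofReal cα * ENNReal.ofReal (‖ext f.1 w‖ ^ p * (Real.pi * (1/4) ^ 2))
      ≤ ∫⁻ z in ball (0:ℂ) 1, ‖ext f.1 z‖ₑ ^ p * ENNReal.ofReal ((1 - ‖z‖) ^ α) := by
    calc ENNReal.ofReal cα * ENNReal.ofReal (‖ext f.1 w‖ ^ p * (Real.pi * (1/4) ^ 2))
        ≤ ENNReal.ofReal cα * ∫⁻ z in ball (w:ℂ) (1/4), ‖ext f.1 z‖ₑ ^ p := by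
          gcongr
          exact Pool.Agent.H402R2.SubMean.rpow_mul_le_lintegral (by norm_num) hp ((ext_diff f).mono hsub)
      _ = ∫⁻ z in ball (w:ℂ) (1/4), ENNReal.ofReal cα * ‖ext f.1 z‖ₑ ^ p := by
          rw [lintegral_const_mul']
          exact ENNReal.ofReal_ne_top
      _ ≤ ∫⁻ z in ball (w:ℂ) (1/4), ‖ext f.1 z‖ₑ ^ p * ENNReal.ofReal ((1 - ‖z‖) ^ α) := by
          apply setLIntegral_mono' measurableSet_ball
          intro z hz
          rw [mul_comm]
          gcongr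
          have h2 := h34 z hz
          have h3 := norm_nonneg z
          rcases le_total 0 α with h4 | h4
          · refine (min_le_left _ _).trans ?_
            exact Real.rpow_le_rpow (by norm_num) (by linarith) h4
          · refine (min_le_right _ _).trans ?_
            exact Real.one_le_rpow_of_pos_of_le_one_of_nonpos (by linarith) (by linarith) h4
      _ ≤ _ := lintegral_mono_set hsub
  rw [ENNReal.le_div_iff_mul_le (Or.inl (by simp [Real.pi_pos])) (Or.inl ENNReal.ofReal_ne_top),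
    ← ENNReal.ofReal_mul (by positivity)]
  refine le_trans (le_of_eq ?_) h1
  rw [← ENNReal.ofReal_mul hcpos.le, ext_apply _ _ w.2]
  congr 1
  ring

theorem coeff_small (p α : ℝ) (hp : 0 < p) (n : ℕ) (ε : ℝ) (hε : 0 < ε) : ∃ δ : ℝ, 0 < δ ∧
    ∀ f : HolD, bnorm p α f.1 ≤ ENNReal.ofReal δ → ‖coeffL n f‖ ≤ ε := by
  obtain ⟨K, hK, hb⟩ := point_bound p α hp
  have hm : 0 < min 1 (1 / p) := lt_min one_pos (by positivity)
  set C : ℝ := ε / 2 ^ n with hC
  have hCpos : 0 < C := by positivity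
  refine ⟨(K * C ^ p) ^ (min 1 (1 / p)), by positivity, fun f hf => ?_⟩
  have h1 : (∫⁻ z : Disc, ‖f.1 z‖ₑ ^ p * ENNReal.ofReal ((1 - ‖(z : ℂ)‖) ^ α) ∂area)
        / ENNReal.ofReal Real.pi ≤ ENNReal.ofReal (K * C ^ p) := by
    rw [← ENNReal.ofReal_rpow_of_nonneg (by positivity) hm.le] at hf
    exact (ENNReal.rpow_le_rpow_iff hm).1 hf
  have h2 := coeff_bound f n C (fun w hw => by
    have h3 := (hb f w hw).trans h1
    rw [ENNReal.ofReal_le_ofReal_iff (by positivity)] at h3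
    have h4 : ‖f.1 w‖ ^ p ≤ C ^ p := le_of_mul_le_mul_left h3 hK
    exact (Real.rpow_le_rpow_iff (norm_nonneg _) hCpos.le hp).1 h4)
  refine h2.trans (le_of_eq ?_)
  rw [hC]; field_simp

theorem eq_zero_of_bnorm (p α : ℝ) (hp : 0 < p) (f : HolD) (hf : bnorm p α f.1 = 0) : f = 0 := by
  have h1 : ∀ n, coeffL n f = 0 := by
    intro n
    rw [← norm_le_zero_iff]
    apply le_of_forall_pos_le_add
    intro ε hε
    obtain ⟨δ, hδ, h⟩ := coeff_small p α hp n ε hε
    rw [zero_add]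
    exact h f (by rw [hf]; exact bot_le)
  ext z
  have h2 := hasSum_coeff f z (mem_ball_zero_iff.1 z.2)
  simp only [h1, zero_mul] at h2
  have h3 := h2.unique hasSum_zero
  rw [ext_apply _ _ z.2] at h3
  simpa using h3

/-- The metric `d(f,g) = ‖f-g‖_{p,α}` of the F-space `B^p_α`. -/
noncomputable instance instMet (p α : ℝ) (hp : 0 < p) : MetricSpace (Bergman p α hp) where
  dist f g := (bnorm p α (f.toFun - g.toFun)).toReal
  dist_self f := by
    rw [sub_self, bnorm_zero p α hp, ENNReal.toReal_zero]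
  dist_comm f g := by
    rw [← neg_sub, bnorm_neg]
  dist_triangle f g h := by
    have h1 : bnorm p α (f.toFun - g.toFun) < ⊤ := (f - g : Bergman p α hp).2.2
    have h2 : bnorm p α (g.toFun - h.toFun) < ⊤ := (g - h : Bergman p α hp).2.2
    rw [← ENNReal.toReal_add h1.ne h2.ne]
    apply ENNReal.toReal_mono (ENNReal.add_lt_top.2 ⟨h1, h2⟩).ne
    have h3 : f.toFun - h.toFun = (f.toFun - g.toFun) + (g.toFun - h.toFun) := by ring
    rw [h3]
    exact bnorm_add_le p α hp _ _ (f.1.continuous.sub g.1.continuous)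
      (g.1.continuous.sub h.1.continuous)
  eq_of_dist_eq_zero := by
    intro f g hfg
    have h1 : bnorm p α (f.toFun - g.toFun) < ⊤ := (f - g : Bergman p α hp).2.2
    have h2 : bnorm p α (f.toFun - g.toFun) = 0 := by
      rcases (ENNReal.toReal_eq_zero_iff _).1 hfg with h | h
      · exact h
      · exact absurd h h1.ne
    have h3 : (f.toHol - g.toHol : HolD) = 0 := eq_zero_of_bnorm p α hp _ h2
    have h4 : f.toHol = g.toHol := sub_eq_zero.1 h3
    have h5 : f.1 = g.1 := congrArg (fun x : HolD => x.1) h4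
    exact Subtype.ext h5

theorem Bergman.dist_def {p α : ℝ} {hp : 0 < p} (f g : Bergman p α hp) :
    dist f g = (bnorm p α (f.toFun - g.toFun)).toReal := rfl

theorem coeff_continuousB (p α : ℝ) (hp : 0 < p) (n : ℕ) :
    Continuous (fun f : Bergman p α hp => coeffL n f.toHol) := by
  rw [Metric.continuous_iff]
  intro g ε hε
  obtain ⟨δ, hδ, h⟩ := coeff_small p α hp n (ε/2) (by positivity)
  refine ⟨δ, hδ, fun f hf => ?_⟩
  rw [dist_eq_norm, ← map_sub]
  refine lt_of_le_of_lt (h (f.toHol - g.toHol) ?_) (by linarith)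
  rw [Bergman.dist_def] at hf
  have h1 : bnorm p α (f.toFun - g.toFun) < ⊤ := (f - g : Bergman p α hp).2.2
  have h2 := (ENNReal.le_ofReal_iff_toReal_le h1.ne hδ.le).2 hf.le
  exact h2

/-! ### The subspace -/

/-- the exponents -/
def NN (m : ℕ) : ℕ := 2 ^ ((m + 11) ^ 2)

theorem NN0 : 1 ≤ NN 0 := Nat.one_le_two_pow

theorem NNs (m : ℕ) : 1024 * NN m ≤ NN (m + 1) := by
  unfold NN
  rw [show 1024 = 2 ^ 10 by norm_num, ← pow_add]
  apply Nat.pow_le_pow_right (by norm_num)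
  have : (m + 1 + 11) ^ 2 = (m + 11) ^ 2 + (2 * m + 23) := by ring
  omega

theorem NN_pos (m : ℕ) : (0 : ℝ) < NN m := by
  unfold NN; positivity

theorem summable_NN (δ : ℝ) (hδ : 0 < δ) : Summable fun m : ℕ => (16 : ℝ) ^ m * (NN m : ℝ) ^ (-δ) := by
  have hg : Summable fun m : ℕ => (1/2 : ℝ) ^ m := summable_geometric_two
  refine Summable.of_norm_bounded_eventually_nat hg ?_
  obtain ⟨M, hM⟩ := exists_nat_gt (5 / δ)
  filter_upwards [eventually_ge_atTop M] with m hm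
  have hm' : (M : ℝ) ≤ m := by exact_mod_cast hm
  have h5 : 5 < δ * m := by
    rw [div_lt_iff₀ hδ] at hM
    nlinarith
  have e1 : (NN m : ℝ) ^ (-δ) = 2 ^ (-(δ * (m + 11) ^ 2)) := by
    unfold NN
    push_cast
    rw [← Real.rpow_natCast, ← Real.rpow_mul (by norm_num)]
    congr 1
    push_cast
    ring
  have e2 : (16 : ℝ) ^ m = 2 ^ ((4 : ℝ) * m) := by
    rw [Real.rpow_mul (by norm_num)]
    norm_num
  have e3 : (1/2 : ℝ) ^ m = 2 ^ (-(m : ℝ)) := by
    rw [Real.rpow_neg (by norm_num), Real.rpow_natCast]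
    simp
  rw [Real.norm_of_nonneg (by positivity), e1, e2, e3, ← Real.rpow_add (by norm_num)]
  apply Real.rpow_le_rpow_of_exponent_le (by norm_num)
  have hm0 : (0:ℝ) ≤ m := Nat.cast_nonneg m
  nlinarith [mul_nonneg hm0 hδ.le]

/-- `r^N ≤ C (N (1-r))^{-δ}`. -/
theorem pow_bound (δ : ℝ) (hδ : 0 < δ) : ∃ C : ℝ, 0 < C ∧ ∀ (r : ℝ) (N : ℕ), 0 ≤ r → r < 1 → 0 < N →
    r ^ N ≤ C * ((N : ℝ) ^ (-δ) * (1 - r) ^ (-δ)) := by
  obtain ⟨k, hk⟩ := exists_nat_gt δ
  refine ⟨1 + k.factorial, by positivity, fun r N hr0 hr1 hN => ?_⟩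
  have hNpos : (0 : ℝ) < N := by exact_mod_cast hN
  have h1r : 0 < 1 - r := by linarith
  set x : ℝ := N * (1 - r) with hx
  have hxpos : 0 < x := by positivity
  have h1 : r ^ N ≤ Real.exp (-x) := by
    have h2 : r ≤ Real.exp (-(1 - r)) := by
      have := Real.add_one_le_exp (-(1 - r))
      linarith
    calc r ^ N ≤ (Real.exp (-(1 - r))) ^ N := pow_le_pow_left₀ hr0 h2 N
      _ = Real.exp (-x) := by
        rw [← Real.exp_nat_mul, hx]; ring_nf
  have h3 : x ^ δ ≤ (1 + k.factorial) * Real.exp x := by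
    have h4 : x ^ δ ≤ 1 + x ^ k := by
      rcases le_total x 1 with h5 | h5
      · have : x ^ δ ≤ 1 := Real.rpow_le_one hxpos.le h5 hδ.le
        have : 0 ≤ x ^ k := by positivity
        linarith
      · have h6 : x ^ δ ≤ x ^ (k : ℝ) := Real.rpow_le_rpow_of_exponent_le h5 hk.le
        rw [Real.rpow_natCast] at h6
        linarith
    have h7 : x ^ k / k.factorial ≤ Real.exp x := Real.pow_div_factorial_le_exp x hxpos.le k
    have h8 : (0:ℝ) < k.factorial := by positivity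
    rw [div_le_iff₀ h8] at h7
    have h9 : 1 ≤ Real.exp x := Real.one_le_exp hxpos.le
    nlinarith
  have h10 : (N : ℝ) ^ (-δ) * (1 - r) ^ (-δ) = (x ^ δ)⁻¹ := by
    rw [← Real.mul_rpow hNpos.le h1r.le, ← hx, Real.rpow_neg hxpos.le]
  rw [h10]
  refine h1.trans ?_
  have h11 : 0 < x ^ δ := by positivity
  rw [← div_eq_mul_inv, le_div_iff₀ h11, Real.exp_neg]
  rw [inv_mul_le_iff₀ (Real.exp_pos x)]
  linarith

theorem integrable_weight (β : ℝ) (hβ : -1 < β) :
    IntegrableOn (fun z : ℂ => (1 - ‖z‖) ^ β) (ball 0 1) := by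
  rw [integrableOn_fun_norm_addHaar (μ := (volume : Measure ℂ)) (f := fun y : ℝ => (1 - y) ^ β) (r := 1)]
  have h1 : IntegrableOn (fun y : ℝ => (1 - y) ^ β) (Set.Ioo 0 1) := by
    have h2 : IntervalIntegrable (fun x : ℝ => x ^ β) volume 0 1 :=
      intervalIntegral.intervalIntegrable_rpow' hβ
    have h3 := h2.comp_sub_left 1
    rw [sub_zero, sub_self] at h3
    exact (intervalIntegrable_iff_integrableOn_Ioo_of_le zero_le_one).1 h3.symm
  refine Integrable.mono h1 (by fun_prop) ?_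
  rw [ae_restrict_iff' measurableSet_Ioo]
  refine Filter.Eventually.of_forall fun y hy => ?_
  rw [norm_smul]
  have h4 : ‖y ^ (Module.finrank ℝ ℂ - 1)‖ ≤ 1 := by
    rw [norm_pow]
    apply pow_le_one₀ (norm_nonneg _)
    rw [Real.norm_of_nonneg hy.1.le]
    exact hy.2.le
  calc _ ≤ 1 * ‖(1 - y) ^ β‖ := by gcongr
    _ = _ := one_mul _

theorem lintegral_weight (β : ℝ) (hβ : -1 < β) (A : ℝ) (hA : 0 ≤ A) :
    ∫⁻ z in ball (0:ℂ) 1, ENNReal.ofReal (A * (1 - ‖z‖) ^ β) < ⊤ := by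
  have h1 := ((integrable_weight β hβ).const_mul A).hasFiniteIntegral
  refine lt_of_le_of_lt (lintegral_mono fun z => ?_) h1
  rw [← ofReal_norm]
  exact ENNReal.ofReal_le_ofReal (le_abs_self _)

/-- A holomorphic function whose coefficients are bounded by `16^m` along `NN` lies in all the Bergman
spaces. -/
theorem bnorm_lt_top (p α : ℝ) (hp : 0 < p) (hα : -1 < α) (i : ℕ) (f : HolD)
    (hf : ∀ z : Disc, HasSum (fun k => (16:ℂ) ^ (Nat.pair i k) * (z:ℂ) ^ (NN (Nat.pair i k))) (f.1 z)) :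
    bnorm p α f.1 < ⊤ := by
  set δ : ℝ := (α + 1) / (2 * p) with hδ
  have hδpos : 0 < δ := by
    rw [hδ]
    have : 0 < α + 1 := by linarith
    positivity
  obtain ⟨C, hC, hbound⟩ := pow_bound δ hδpos
  have hsum := summable_NN δ hδpos
  set A : ℝ := ∑' m : ℕ, (16 : ℝ) ^ m * (NN m : ℝ) ^ (-δ) with hA
  have hA0 : 0 ≤ A := tsum_nonneg fun m => by positivity
  have hinj : Function.Injective (Nat.pair i) := pair_inj i
  have hpt : ∀ z : Disc, ‖f.1 z‖ ≤ C * A * (1 - ‖(z:ℂ)‖) ^ (-δ) := by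
    intro z
    have hz : ‖(z:ℂ)‖ < 1 := mem_ball_zero_iff.1 z.2
    have h1z : 0 < 1 - ‖(z:ℂ)‖ := by linarith
    have hs1 : Summable fun m : ℕ => (C * (1 - ‖(z:ℂ)‖) ^ (-δ)) * ((16 : ℝ) ^ m * (NN m : ℝ) ^ (-δ)) :=
      hsum.mul_left _
    have hs2 := hs1.comp_injective hinj
    have hle : ∀ k, ‖(16:ℂ) ^ (Nat.pair i k) * (z:ℂ) ^ (NN (Nat.pair i k))‖ ≤
        (C * (1 - ‖(z:ℂ)‖) ^ (-δ)) * ((16 : ℝ) ^ (Nat.pair i k) * (NN (Nat.pair i k) : ℝ) ^ (-δ)) := by
      intro k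
      have h2 := hbound ‖(z:ℂ)‖ (NN (Nat.pair i k)) (norm_nonneg _) hz (by unfold NN; positivity)
      have h3 : ‖(16:ℂ)‖ = 16 := by simp
      rw [norm_mul, norm_pow, norm_pow, h3]
      calc (16:ℝ) ^ (Nat.pair i k) * ‖(z:ℂ)‖ ^ (NN (Nat.pair i k))
          ≤ (16:ℝ) ^ (Nat.pair i k) * (C * ((NN (Nat.pair i k) : ℝ) ^ (-δ) * (1 - ‖(z:ℂ)‖) ^ (-δ))) := by
            gcongr
        _ = _ := by ring
    have h4 := tsum_of_norm_bounded hs2.hasSum hle
    rw [(hf z).tsum_eq] at h4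
    refine h4.trans ?_
    have h5 : ∑' k, ((fun m : ℕ => (C * (1 - ‖(z:ℂ)‖) ^ (-δ)) * ((16 : ℝ) ^ m * (NN m : ℝ) ^ (-δ))) ∘
        Nat.pair i) k ≤ ∑' m : ℕ, (C * (1 - ‖(z:ℂ)‖) ^ (-δ)) * ((16 : ℝ) ^ m * (NN m : ℝ) ^ (-δ)) := by
      apply tsum_comp_le_tsum_of_inj hs1 _ hinj
      intro m
      positivity
    refine h5.trans (le_of_eq ?_)
    rw [tsum_mul_left, ← hA]
    ring
  have hfin : ∫⁻ z : Disc, ‖f.1 z‖ₑ ^ p * ENNReal.ofReal ((1 - ‖(z : ℂ)‖) ^ α) ∂area < ⊤ := by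
    rw [lint_eq]
    refine lt_of_le_of_lt ?_ (lintegral_weight ((α - 1) / 2) (by linarith) ((C * A) ^ p) (by positivity))
    apply setLIntegral_mono' measurableSet_ball
    intro z hz
    have hz' : ‖z‖ < 1 := mem_ball_zero_iff.1 hz
    have h1z : 0 < 1 - ‖z‖ := by linarith
    rw [ext_apply _ _ hz, ← ofReal_norm, ENNReal.ofReal_rpow_of_nonneg (norm_nonneg _) hp.le,
      ← ENNReal.ofReal_mul (by positivity)]
    apply ENNReal.ofReal_le_ofReal
    have h1 := hpt ⟨z, hz⟩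
    have h2 : ‖f.1 ⟨z, hz⟩‖ ^ p ≤ (C * A) ^ p * (1 - ‖z‖) ^ (-(α + 1) / 2) := by
      calc ‖f.1 ⟨z, hz⟩‖ ^ p ≤ (C * A * (1 - ‖z‖) ^ (-δ)) ^ p :=
            Real.rpow_le_rpow (norm_nonneg _) h1 hp.le
        _ = (C * A) ^ p * (1 - ‖z‖) ^ (-(α + 1) / 2) := by
            rw [Real.mul_rpow (by positivity) (by positivity), ← Real.rpow_mul h1z.le]
            congr 2
            rw [hδ]
            field_simp
    calc ‖f.1 ⟨z, hz⟩‖ ^ p * (1 - ‖z‖) ^ α
        ≤ ((C * A) ^ p * (1 - ‖z‖) ^ (-(α + 1) / 2)) * (1 - ‖z‖) ^ α := by gcongr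
      _ = (C * A) ^ p * (1 - ‖z‖) ^ ((α - 1) / 2) := by
          rw [mul_assoc, ← Real.rpow_add h1z]
          congr 2
          ring
  have hm : 0 < min 1 (1 / p) := lt_min one_pos (by positivity)
  apply ENNReal.rpow_lt_top_of_nonneg hm.le
  exact (ENNReal.div_lt_top hfin.ne (by simp [Real.pi_pos])).ne

/-- The closed subspace of `B^p_α`. -/
noncomputable def MB (p α : ℝ) (hp : 0 < p) : Submodule ℂ (Bergman p α hp) where
  carrier := {f | f.toHol ∈ MSub NN}
  add_mem' := fun {f g} hf hg => (MSub NN).add_mem (x := f.toHol) (y := g.toHol) hf hg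
  zero_mem' := (MSub NN).zero_mem
  smul_mem' := fun c f hf => (MSub NN).smul_mem c (x := f.toHol) hf

theorem MB_closed (p α : ℝ) (hp : 0 < p) : IsClosed (MB p α hp : Set (Bergman p α hp)) := by
  have h1 : (MB p α hp : Set (Bergman p α hp)) =
      (⋂ n ∈ (Set.range NN)ᶜ, {f : Bergman p α hp | coeffL n f.toHol = 0}) ∩
      ⋂ i, ⋂ k, {f : Bergman p α hp | (16:ℂ) ^ (Nat.pair i 0) * coeffL (NN (Nat.pair i k)) f.toHol
      = 16 ^ (Nat.pair i k) * coeffL (NN (Nat.pair i 0)) f.toHol} := by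
    ext f
    simp only [Set.mem_inter_iff, Set.mem_iInter, Set.mem_ofPred_eq, Set.mem_compl_iff]
    exact Iff.rfl
  rw [h1]
  refine IsClosed.inter ?_ ?_
  · exact isClosed_biInter fun n _ => isClosed_eq (coeff_continuousB p α hp n) continuous_const
  · exact isClosed_iInter fun i => isClosed_iInter fun k =>
      isClosed_eq (continuous_const.mul (coeff_continuousB p α hp _))
        (continuous_const.mul (coeff_continuousB p α hp _))

/-- the coefficient functionals on `B^p_α` -/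
noncomputable def coeffB (p α : ℝ) (hp : 0 < p) (n : ℕ) : Bergman p α hp →ₗ[ℂ] ℂ where
  toFun f := coeffL n f.toHol
  map_add' f g := (coeffL n).map_add f.toHol g.toHol
  map_smul' c f := (coeffL n).map_smul c f.toHol

theorem MB_infinite (p α : ℝ) (hp : 0 < p) (hα : -1 < α) : ¬ FiniteDimensional ℂ (MB p α hp) := by
  choose f hfM hf1 hf2 hf3 using exists_elt NN NN0 NNs
  have hmem : ∀ i, bnorm p α (f i).1 < ⊤ := fun i => bnorm_lt_top p α hp hα i (f i) (hf3 i)
  apply not_finite_of_biorthogonal (V := MB p α hp)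
    (fun i => ⟨⟨(f i).1, (f i).2, hmem i⟩, hfM i⟩)
    (fun i => (coeffB p α hp (NN (Nat.pair i 0))).comp (MB p α hp).subtype)
  · intro i
    change coeffL (NN (Nat.pair i 0)) (f i) ≠ 0
    rw [hf1]
    exact pow_ne_zero _ (by norm_num)
  · intro i j hj
    exact hf2 j i hj.symm 0

/-- **Q2.** For every `p > 0` and every `α > -1`, the set of strongly annular functions in the weighted
Bergman space `B^p_α` is spaceable in `B^p_α`: there is a closed infinite-dimensional linear subspace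
of the F-space `B^p_α` all of whose nonzero elements are strongly annular. -/
theorem result (p α : ℝ) (hp : 0 < p) (hα : -1 < α) :
    ∃ M : Submodule ℂ (Bergman p α hp), IsClosed (M : Set (Bergman p α hp)) ∧
      ¬ FiniteDimensional ℂ M ∧ ∀ f ∈ M, f ≠ 0 → StronglyAnnular f.toFun := by
  refine ⟨MB p α hp, MB_closed p α hp, MB_infinite p α hp hα, fun f hf hne => ?_⟩
  refine strongly_annular_of_mem NN NN0 NNs f.toHol hf ?_
  intro h
  apply hne
  have h5 : f.1 = 0 := congrArg (fun x : HolD => x.1) h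
  exact Subtype.ext h5

end Pool.Agent.Results.MP_fdf3ca_an.SpaceableBergman
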